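import Pool.Agent.PCS.Stmts

/-!
Squad PCS, row AHR: the recursion for the number of pairs of rank at least `h`.
-/

namespace Pool.Agent.PCS.H33

open Pool.Agent.PCS

section

variable {Γ V : Type} [Group Γ] [MulAction Γ V]

lemma lv_orbit (T : Tree Γ V) {v w : V} (h : w ∈ MulAction.orbit Γ v) : T.lv w = T.lv v := by
  obtain ⟨g, rfl⟩ := h
  exact T.lv_smul g v

/-- one step along the path -/
lemma rank_step {T : Tree Γ V} {S : Finset Γ} {rk : Γ → V → ℕ} {R : ℕ} (hR : Rank T S rk R)
    (hlv : ∀ (k : ℕ) (v : V), T.lv (T.par^[k] v) = T.lv v - k) {s : Γ} (hs : s ∈ S) (w : V)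
    {m : ℕ} (hm : m < T.lv w) : rk s (T.par^[m] w) ≤ rk s (T.par^[m + 1] w) := by
  rw [Function.iterate_succ_apply']
  refine hR.mono s hs _ ?_
  rw [hlv]
  omega

/-- the rank does not decrease on the way up -/
lemma rank_path {T : Tree Γ V} {S : Finset Γ} {rk : Γ → V → ℕ} {R : ℕ} (hR : Rank T S rk R)
    (hlv : ∀ (k : ℕ) (v : V), T.lv (T.par^[k] v) = T.lv v - k) {s : Γ} (hs : s ∈ S) (w : V)
    (m n : ℕ) (hmn : m ≤ n) (hn : n ≤ T.lv w) :
    rk s (T.par^[m] w) ≤ rk s (T.par^[n] w) := by
  induction n, hmn using Nat.le_induction with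
  | base => exact le_rfl
  | succ n hmn ih => exact (ih (by omega)).trans (rank_step hR hlv hs w (by omega))

/-- two vertices of the same rank `h ≥ 1` with the same ancestor of rank `h` coincide -/
lemma path_uniq {T : Tree Γ V} {S : Finset Γ} {rk : Γ → V → ℕ} {R : ℕ} (hR : Rank T S rk R)
    (hlv : ∀ (k : ℕ) (v : V), T.lv (T.par^[k] v) = T.lv v - k) {s : Γ} (hs : s ∈ S)
    {h k : ℕ} (hh : 1 ≤ h) {w w' : V} (hw : k ≤ T.lv w) (hw' : k ≤ T.lv w')
    (h1 : h ≤ rk s w) (h1' : h ≤ rk s w') (h2 : rk s (T.par^[k] w) ≤ h)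
    (he : T.par^[k] w = T.par^[k] w') : w = w' := by
  have hr : ∀ m ≤ k, rk s (T.par^[m] w) = h := by
    intro m hm
    have a := rank_path hR hlv hs w 0 m (Nat.zero_le _) (by omega)
    have b := rank_path hR hlv hs w m k hm hw
    simp only [Function.iterate_zero, id_eq] at a
    omega
  have hr' : ∀ m ≤ k, rk s (T.par^[m] w') = h := by
    intro m hm
    have a := rank_path hR hlv hs w' 0 m (Nat.zero_le _) (by omega)
    have b := rank_path hR hlv hs w' m k hm hw'
    simp only [Function.iterate_zero, id_eq] at a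
    rw [← he] at b
    omega
  have key : ∀ j ≤ k, T.par^[k - j] w = T.par^[k - j] w' := by
    intro j
    induction j with
    | zero => intro _; simpa using he
    | succ j ih =>
      intro hj
      have e := ih (by omega)
      have hk : k - j = (k - (j + 1)) + 1 := by omega
      have p1 : T.par (T.par^[k - (j + 1)] w) = T.par^[k - j] w := by
        rw [hk, Function.iterate_succ_apply']
      have p2 : T.par (T.par^[k - (j + 1)] w') = T.par^[k - j] w' := by
        rw [hk, Function.iterate_succ_apply']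
      refine hR.uniq s hs _ _ ?_ ?_ ?_ ?_ ?_ ?_
      · rw [hlv]; omega
      · rw [hlv]; omega
      · rw [p1, p2, e]
      · rw [p1, hr _ (by omega)]; exact hh
      · rw [p1, hr _ (by omega), hr _ (by omega)]
      · rw [p2, hr' _ (by omega), hr' _ (by omega)]
  have := key k le_rfl
  simpa using this

end

theorem ahr (hL : LevStmt) (hI : ItpStmt) : AhrStmt := by
  intro Γ V _ _ T S rk R hR h k v hh hk
  classical
  obtain ⟨-, hlev⟩ := hL Γ V T
  obtain ⟨hp, hlv, -⟩ := hI Γ V T
  have hfin : (MulAction.orbit Γ v).Finite := (hlev v).1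
  have hfin' : (MulAction.orbit Γ (T.par^[k] v)).Finite := (hlev _).1
  obtain ⟨O, hO⟩ : ∃ O : Finset V, ∀ w, w ∈ O ↔ w ∈ MulAction.orbit Γ v :=
    ⟨hfin.toFinset, fun w => hfin.mem_toFinset⟩
  obtain ⟨O', hO'⟩ : ∃ O : Finset V, ∀ w, w ∈ O ↔ w ∈ MulAction.orbit Γ (T.par^[k] v) :=
    ⟨hfin'.toFinset, fun w => hfin'.mem_toFinset⟩
  have hNO : N Γ v = O.card := by
    unfold N
    rw [← Set.ncard_coe_finset]
    congr 1
    ext w
    simp [hO]
  have hNO' : N Γ (T.par^[k] v) = O'.card := by
    unfold N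
    rw [← Set.ncard_coe_finset]
    congr 1
    ext w
    simp [hO']
  have hmap : ∀ w ∈ O, T.par^[k] w ∈ O' := by
    intro w hw
    obtain ⟨g, rfl⟩ := (hO w).1 hw
    exact (hO' _).2 ⟨g, (hp k g v).symm⟩
  -- fibres
  have hF : ∀ w' ∈ O', (O.filter fun w => T.par^[k] w = w').card =
      (O.filter fun w => T.par^[k] w = T.par^[k] v).card := by
    intro w' hw'
    obtain ⟨g, rfl⟩ := (hO' _).1 hw'
    symm
    refine Finset.card_bij (fun w _ => g • w) ?_ ?_ ?_
    · intro w hw
      rw [Finset.mem_filter] at hw ⊢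
      refine ⟨?_, ?_⟩
      · obtain ⟨x, rfl⟩ := (hO w).1 hw.1
        exact (hO _).2 ⟨g * x, by simp only [mul_smul]⟩
      · rw [hp, hw.2]
    · intro a _ b _ hab
      exact smul_left_cancel g hab
    · intro b hb
      rw [Finset.mem_filter] at hb
      refine ⟨g⁻¹ • b, ?_, by simp⟩
      rw [Finset.mem_filter]
      refine ⟨?_, ?_⟩
      · obtain ⟨x, rfl⟩ := (hO b).1 hb.1
        exact (hO _).2 ⟨g⁻¹ * x, by simp only [mul_smul]⟩
      · rw [hp, hb.2]
        simp
  set D := (O.filter fun w => T.par^[k] w = T.par^[k] v).card with hD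
  have hN : O.card = D * O'.card := by
    rw [Finset.card_eq_sum_card_fiberwise (f := fun w => T.par^[k] w) (t := O')
      (fun w hw => hmap w hw), Finset.sum_congr rfl hF, Finset.sum_const, smul_eq_mul, mul_comm]
  -- one label
  have one : ∀ s ∈ S, {w : V | w ∈ MulAction.orbit Γ v ∧ h ≤ rk s w}.ncard ≤
      O'.card + D * {w : V | w ∈ MulAction.orbit Γ (T.par^[k] v) ∧ h + 1 ≤ rk s w}.ncard := by
    intro s hs
    have e1 : {w : V | w ∈ MulAction.orbit Γ v ∧ h ≤ rk s w} =
        ((O.filter fun w => h ≤ rk s w : Finset V) : Set V) := by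
      ext w
      simp [hO]
    have e2 : {w : V | w ∈ MulAction.orbit Γ (T.par^[k] v) ∧ h + 1 ≤ rk s w} =
        ((O'.filter fun w => h + 1 ≤ rk s w : Finset V) : Set V) := by
      ext w
      simp [hO']
    rw [e1, e2, Set.ncard_coe_finset, Set.ncard_coe_finset]
    have hsplit := Finset.card_filter_add_card_filter_not (s := O.filter fun w => h ≤ rk s w)
      (fun w => rk s (T.par^[k] w) ≤ h)
    rw [← hsplit]
    refine Nat.add_le_add ?_ ?_
    · refine Finset.card_le_card_of_injOn (fun w => T.par^[k] w) ?_ ?_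
      · intro w hw
        have hw := Finset.mem_coe.1 hw
        rw [Finset.mem_filter, Finset.mem_filter] at hw
        exact Finset.mem_coe.2 (hmap w hw.1.1)
      · intro w hw w' hw' e
        have hw := Finset.mem_coe.1 hw
        have hw' := Finset.mem_coe.1 hw'
        rw [Finset.mem_filter, Finset.mem_filter] at hw hw'
        have l1 := lv_orbit T ((hO w).1 hw.1.1)
        have l2 := lv_orbit T ((hO w').1 hw'.1.1)
        exact path_uniq hR hlv hs hh (by omega) (by omega) hw.1.2 hw'.1.2 hw.2 e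
    · have hm : ∀ w ∈ (O.filter fun w => h ≤ rk s w).filter
          (fun w => ¬ rk s (T.par^[k] w) ≤ h),
          T.par^[k] w ∈ O'.filter fun w => h + 1 ≤ rk s w := by
        intro w hw
        rw [Finset.mem_filter, Finset.mem_filter] at hw
        rw [Finset.mem_filter]
        exact ⟨hmap w hw.1.1, by omega⟩
      rw [Finset.card_eq_sum_card_fiberwise (f := fun w => T.par^[k] w)
        (t := O'.filter fun w => h + 1 ≤ rk s w) (fun w hw => hm w hw), mul_comm,
        ← smul_eq_mul, ← Finset.sum_const]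
      refine Finset.sum_le_sum fun w' hw' => ?_
      rw [Finset.mem_filter] at hw'
      rw [← hF w' hw'.1]
      refine Finset.card_le_card fun w hw => ?_
      rw [Finset.mem_filter, Finset.mem_filter, Finset.mem_filter] at hw
      rw [Finset.mem_filter]
      exact ⟨hw.1.1.1, hw.2⟩
  have tot : ah S rk h v ≤ S.card * O'.card + D * ah S rk (h + 1) (T.par^[k] v) := by
    unfold ah
    calc ∑ s ∈ S, {w : V | w ∈ MulAction.orbit Γ v ∧ h ≤ rk s w}.ncard
        ≤ ∑ s ∈ S, (O'.card +
          D * {w : V | w ∈ MulAction.orbit Γ (T.par^[k] v) ∧ h + 1 ≤ rk s w}.ncard) :=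
          Finset.sum_le_sum one
      _ = _ := by
          rw [Finset.sum_add_distrib, Finset.sum_const, smul_eq_mul, Finset.mul_sum]
  rw [hNO, hNO', hN]
  calc O'.card * ah S rk h v
      ≤ O'.card * (S.card * O'.card + D * ah S rk (h + 1) (T.par^[k] v)) :=
        Nat.mul_le_mul_left _ tot
    _ = _ := by ring

end Pool.Agent.PCS.H33
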